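import Pool.Agent.H236Z.Box.Sound

namespace Pool.Agent.H236Z.Box

open Finset Pool.Agent.H236Z.Book

variable (p : Par) (f : ℕ → ℕ)

def Y (z : ℕ) : ℕ := z * (p.m + 5)

def X (j t : ℕ) : ℕ := Y p (p.slot f j t) + 3 + j

def cl : Hx → ℕ
  | .w i => Y p i
  | .wl b _ => Y p (p.a b)
  | .en e => Y p (p.a (e * p.K)) + 1
  | .rt => Y p 1 + 2
  | .bb j t => X p f j (t - 1)
  | .tk j t => X p f j t

def cr : Hx → ℕ
  | .w i => Y p (i + 1) + 2
  | .wl b _ => Y p (p.a b) + 2
  | .en e => Y p (p.a (e * p.K)) + 1
  | .rt => Y p (p.a p.K)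
  | .bb j t => X p f j (min t (6 * p.s j))
  | .tk j t => X p f j t

variable {p f}

theorem Ym {a b : ℕ} (h : a ≤ b) : Y p a ≤ Y p b := Nat.mul_le_mul_right _ h

theorem Ys {a b : ℕ} (h : a < b) : Y p a + (p.m + 5) ≤ Y p b := by
  have := Ym (p := p) (show a + 1 ≤ b from h)
  unfold Y at *
  rwa [Nat.succ_mul] at this

theorem Xm (j : ℕ) {t t' : ℕ} (h : t ≤ t') : X p f j t ≤ X p f j t' := by
  have := Ym (p := p) (show p.slot f j t ≤ p.slot f j t' by unfold Par.slot; omega)
  unfold X; omega

theorem Xs (j : ℕ) {t t' : ℕ} (h : t < t') : X p f j t < X p f j t' := by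
  have := Ys (p := p) (show p.slot f j t < p.slot f j t' by unfold Par.slot; omega)
  unfold X; omega

theorem Xlo {j t z : ℕ} (h : z ≤ p.slot f j t) : Y p z + 3 ≤ X p f j t := by
  have := Ym (p := p) h
  unfold X; omega

theorem Xhi {j t z : ℕ} (hj : j < p.m) (h : p.slot f j t < z) : X p f j t + 3 ≤ Y p z := by
  have := Ys (p := p) h
  unfold X; omega

theorem Xsep (h : p.IsPack f) {j j' : ℕ} (hj : j < p.m) (hj' : j' < p.m) (hne : j ≠ j') :
    (∀ t ≤ 6 * p.s j, ∀ t' ≤ 6 * p.s j', X p f j t < X p f j' t') ∨
      (∀ t ≤ 6 * p.s j, ∀ t' ≤ 6 * p.s j', X p f j' t' < X p f j t) := by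
  have k1 : ∀ j j', j < j' → f j = f j' → ∀ t ≤ 6 * p.s j, ∀ t', X p f j t < X p f j' t' := by
    intro j j' a e t ht t'
    have b := Par.off_step (p := p) a e
    have := Ym (p := p) (show p.slot f j t ≤ p.slot f j' t' by unfold Par.slot; rw [e]; omega)
    unfold X; omega
  have k2 : ∀ j j', j < p.m → j' < p.m → f j < f j' → ∀ t ≤ 6 * p.s j, ∀ t' ≤ 6 * p.s j',
      X p f j t < X p f j' t' := by
    intro j j' hj hj' a t ht t' ht'
    have b1 := h.slot_bd hj ht
    have b2 := h.slot_bd hj' ht'
    have b3 := (Par.a_strictMono (p := p)).monotone (show f j + 1 ≤ f j' from a)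
    have c1 := Xhi (p := p) (f := f) (t := t) (z := p.slot f j' t') hj (by omega)
    have c2 := Xlo (p := p) (f := f) (j := j') (t := t') le_rfl
    omega
  rcases lt_trichotomy (f j) (f j') with a | a | a
  · exact Or.inl (k2 j j' hj hj' a)
  · rcases lt_or_gt_of_ne hne with b | b
    · exact Or.inl fun t ht t' _ => k1 j j' b a t ht t'
    · exact Or.inr fun t _ t' ht' => k1 j' j b a.symm t' ht' t
  · exact Or.inr fun t ht t' ht' => k2 j' j hj' hj a t' ht' t ht

theorem item_eq {j t j' t' : ℕ} (hj : j < p.m) (hj' : j' < p.m) (a1 : t ≤ 12 * p.s j + 2)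
    (a2 : t' ≤ 12 * p.s j' + 2) (a3 : base p j ≤ base p j' + t' + 2)
    (a4 : base p j' ≤ base p j + t + 2) : j = j' := by
  have b1 := (item_bd hj).1
  have b2 := (item_bd hj').1
  rcases lt_trichotomy j j' with a | a | a
  · have := base_step (p := p) a; omega
  · exact a
  · have := base_step (p := p) a; omega

theorem c_meet (h : p.IsPack f) {x y : Hx} (hx : hval p x) (hy : hval p y) (ha : HAdj p x y) :
    cl p f x ≤ cr p f y := by
  have hP : p.P = p.a p.K + 1 := rfl
  obtain ⟨hc, h1, h2⟩ := ha
  have rl : ∀ α, cl p f x ≤ Y p α + 1 → lo p x = 2 * α → hi p x ≤ 2 * p.P →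
      (col x ≠ 4 → cl p f x ≤ Y p (p.a p.K)) → cl p f x ≤ cr p f y := by
    intro α a1 a2 a3 a4
    cases y with
    | w i => have := Ym (p := p) (show α ≤ i + 1 by simp only [hi] at h1; omega); simp only [cr]; omega
    | wl b c =>
      have := Ym (p := p) (show α ≤ p.a b by simp only [hi] at h1; omega); simp only [cr]; omega
    | en e =>
      have := Ym (p := p) (show α ≤ p.a (e * p.K) by simp only [hi] at h1; omega)
      simp only [cr]; omega
    | rt => exact a4 hc
    | bb j t => have := base_ge (p := p) j; simp only [lo] at h2; omega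
    | tk j t => have := base_ge (p := p) j; simp only [lo] at h2; omega
  have it : ∀ j τ T, j < p.m → τ ≤ 6 * p.s j → cl p f x = X p f j τ → T ≤ 12 * p.s j + 2 →
      base p j ≤ lo p x → base p j + 2 * τ + 2 ≤ lo p x + 2 → hi p x = base p j + T + 2 →
      (base p j + 2 * τ + 2 ≤ lo p x ∨ τ = 0 ∨ base p j + 2 * τ + 2 = lo p x + 0) →
      cl p f x ≤ cr p f y := by
    intro j τ T hj hτ a1 a2 a3 a4 a5 a6
    have b0 := base_ge (p := p) j
    rw [a1]
    cases y with
    | w i => have : i < p.P := hy; simp only [hi] at h1; omega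
    | wl b c => have := Par.a_lt_P hy.1; simp only [hi] at h1; omega
    | en e => have := en_lt (p := p) hy; simp only [hi] at h1; omega
    | rt =>
      have b1 := h.slot_bd hj hτ
      have := Xhi (p := p) (f := f) (t := τ) (z := p.a p.K) hj (by omega)
      simp only [cr]; omega
    | bb j' t' =>
      have h1' : lo p x ≤ base p j' + 2 * t' + 2 := h1
      have h2' : base p j' + 2 * t' ≤ hi p x := h2
      obtain rfl := item_eq (t := T) (t' := 2 * t') hj hy.1 a2 (by have := hy.2; omega)
        (by omega) (by omega)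
      exact Xm _ (by omega)
    | tk j' t' =>
      have h1' : lo p x ≤ base p j' + 2 * t' + 2 := h1
      have h2' : base p j' + 2 * t' + 2 ≤ hi p x := h2
      obtain rfl := item_eq (t := T) (t' := 2 * t') hj hy.1 a2 (by have := hy.2; omega)
        (by omega) (by omega)
      exact Xm _ (by omega)
  cases x with
  | w i =>
    have : i < p.P := hx
    exact rl i (Nat.le_succ _) rfl (by simp only [hi]; omega) fun _ => Ym (by omega)
  | wl b c =>
    have := Par.a_lt_P hx.1
    exact rl (p.a b) (Nat.le_succ _) rfl (by simp only [hi]; omega) fun _ => Ym (by omega)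
  | en e =>
    have := en_lt (p := p) hx
    exact rl (p.a (e * p.K)) le_rfl rfl (by simp only [hi]; omega) fun a => (a rfl).elim
  | rt =>
    cases y with
    | w i => have := Ym (p := p) (show 1 ≤ i + 1 by omega); simp only [cl, cr]; omega
    | wl b c => have := Ym (p := p) (Par.a_pos (p := p) b); simp only [cl, cr]; omega
    | en e => exact (hc rfl).elim
    | rt => exact (hc rfl).elim
    | bb j t =>
      have b1 := h.slot_bd hy.1 (min_le_right t _)
      have := Xlo (p := p) b1.2.2.1
      simp only [cl, cr]; omega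
    | tk j t =>
      have b1 := h.slot_bd hy.1 hy.2
      have := Xlo (p := p) b1.2.2.1
      simp only [cl, cr]; omega
  | bb j t =>
    have := hx.2
    exact it j (t - 1) (2 * t) hx.1 (by omega) rfl (by omega) (by simp only [lo]; omega)
      (by simp only [lo]; omega) rfl (by simp only [lo]; omega)
  | tk j t =>
    have := hx.2
    exact it j t (2 * t) hx.1 (by omega) rfl (by omega) (by simp only [lo]; omega)
      (by simp only [lo]; omega) rfl (by simp only [lo]; omega)

theorem c_le (hK : 1 ≤ p.K) {x : Hx} (hx : hval p x) : cl p f x ≤ cr p f x := by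
  have hP : p.P = p.a p.K + 1 := rfl
  have hP4 := P_ge4 hK
  cases x with
  | w i => have := Ym (p := p) (show i ≤ i + 1 by omega); simp only [cl, cr]; omega
  | rt => have := Ys (p := p) (show 1 < p.a p.K by omega); simp only [cl, cr]; omega
  | bb j t => have := hx.2; exact Xm _ (by omega)
  | _ => simp only [cl, cr]; omega

theorem c_sep (hK : 1 ≤ p.K) (h : p.IsPack f) {x y : Hx} (hx : hval p x) (hy : hval p y)
    (hne : x ≠ y) (hc : col x = col y) : cr p f x < cl p f y ∨ cr p f y < cl p f x := by
  have wt : ∀ i j t, j < p.m → i % 2 = t % 2 →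
      cr p f (.w i) < cl p f (.tk j t) ∨ cr p f (.tk j t) < cl p f (.w i) := by
    intro i j t hj e
    have e1 := Par.a_odd (p := p) (f j)
    have e2 := Par.off_even (p := p) (f := f) j
    simp only [cl, cr]
    rcases lt_or_gt_of_ne (show i ≠ p.slot f j t by unfold Par.slot; omega) with a | a
    · have := Xlo (p := p) (show i + 1 ≤ _ from a); omega
    · have := Xhi hj a; omega
  have wb : ∀ b c j t, j < p.m → t ≤ 6 * p.s j + 1 →
      cr p f (.wl b c) < cl p f (.bb j t) ∨ cr p f (.bb j t) < cl p f (.wl b c) := by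
    intro b c j t hj ht
    simp only [cl, cr]
    rcases Nat.lt_or_ge (f j) b with a | a
    · have b1 := h.slot_bd hj (min_le_right t _)
      have b3 := (Par.a_strictMono (p := p)).monotone (show f j + 1 ≤ b from a)
      have := Xhi (p := p) (f := f) (t := min t (6 * p.s j)) (z := p.a b) hj (by omega)
      omega
    · have b1 := h.slot_bd hj (show t - 1 ≤ 6 * p.s j by omega)
      have b3 := (Par.a_strictMono (p := p)).monotone a
      have := Xlo (p := p) (f := f) (j := j) (t := t - 1) (z := p.a b) (by omega)
      omega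
  have er : ∀ e, e < 2 → cr p f (.en e) < cl p f .rt ∨ cr p f .rt < cl p f (.en e) := by
    intro e he
    simp only [cl, cr]
    rcases (show e = 0 ∨ e = 1 by omega) with rfl | rfl
    · rw [zero_mul, Par.a_zero]; omega
    · rw [one_mul]; omega
  have aa : ∀ b b', b ≠ b' → Y p (p.a b) + 2 < Y p (p.a b') ∨ Y p (p.a b') + 2 < Y p (p.a b) := by
    intro b b' hb
    rcases lt_or_gt_of_ne hb with a | a
    · have := Ys (p := p) (Par.a_strictMono (p := p) a); omega
    · have := Ys (p := p) (Par.a_strictMono (p := p) a); omega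
  cases x with
  | w i =>
    cases y with
    | w i' =>
      have : i ≠ i' := fun e => hne (by rw [e])
      simp only [col] at hc
      simp only [cl, cr]
      rcases (show i + 1 < i' ∨ i' + 1 < i by omega) with a | a <;>
        have := Ys (p := p) a <;> omega
    | tk j t => exact wt i j t hy.1 hc
    | _ => simp only [col] at hc; omega
  | wl b c =>
    have := hx.2
    cases y with
    | wl b' c' =>
      simp only [col] at hc
      obtain rfl : c = c' := by omega
      exact aa b b' fun e => hne (by rw [e])
    | bb j t => exact wb b c j t hy.1 hy.2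
    | _ => simp only [col] at hc; omega
  | en e =>
    cases y with
    | en e' =>
      have := aa (e * p.K) (e' * p.K) fun a => hne (by rw [Nat.eq_of_mul_eq_mul_right hK a])
      simp only [cl, cr]; omega
    | rt => exact er e hx
    | wl b c => have := hy.2; simp only [col] at hc; omega
    | _ => simp only [col] at hc; omega
  | rt =>
    cases y with
    | en e => exact (er e hy).symm
    | rt => exact (hne rfl).elim
    | wl b c => have := hy.2; simp only [col] at hc; omega
    | _ => simp only [col] at hc; omega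
  | bb j t =>
    cases y with
    | wl b c => exact (wb b c j t hx.1 hx.2).symm
    | bb j' t' =>
      have a1 := hx.2
      have a2 := hy.2
      simp only [col] at hc
      simp only [cl, cr]
      by_cases e : j = j'
      · subst e
        have : t ≠ t' := fun e => hne (by rw [e])
        rcases (show t + 1 < t' ∨ t' + 1 < t by omega) with a | a
        · exact Or.inl (Xs _ (by omega))
        · exact Or.inr (Xs _ (by omega))
      · rcases Xsep h hx.1 hy.1 e with a | a
        · exact Or.inl (a _ (min_le_right _ _) _ (by omega))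
        · exact Or.inr (a _ (by omega) _ (min_le_right _ _))
    | _ => simp only [col] at hc; omega
  | tk j t =>
    cases y with
    | w i => exact (wt i j t hx.1 hc.symm).symm
    | tk j' t' =>
      simp only [cl, cr]
      by_cases e : j = j'
      · subst e
        have : t ≠ t' := fun e => hne (by rw [e])
        rcases lt_or_gt_of_ne this with a | a
        · exact Or.inl (Xs _ a)
        · exact Or.inr (Xs _ a)
      · rcases Xsep h hx.1 hy.1 e with a | a
        · exact Or.inl (a _ hx.2 _ hy.2)
        · exact Or.inr (a _ hx.2 _ hy.2)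
    | _ => simp only [col] at hc; omega

theorem box_iff (hK : 1 ≤ p.K) {V : Type} [Fintype V] {G : SimpleGraph V} {φ : V → Vb}
    (hM : IsModel p G φ) : HasBoxRep G 7 ↔ p.Pack := by
  constructor
  · intro h
    obtain ⟨l, r, h1⟩ := icr_of_icg hK (icg_of_box hM h)
    exact h1.pack hK
  · rintro ⟨f, h1, h2⟩
    have hf : p.IsPack f := ⟨h1, h2⟩
    exact box_of_icn hM (l := cl p f) (r := cr p f) ⟨fun x hx => c_le hK hx,
      fun x y hx hy ha => c_meet hf hx hy ha, fun x y hx hy hne hc => c_sep hK hf hx hy hne hc⟩

end Pool.Agent.H236Z.Box
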