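import Pool.Agent.H236Z.Book.Defs

/-! Boxicity of finite simple graphs. -/

namespace Pool.Agent.H236Z.Box

/-- `G` has a `d`-box representation: each vertex `v` gets the box `Set.Icc (l v) (r v)`, the
product of the nonempty closed intervals `[l v i, r v i]`, and distinct vertices are adjacent if
and only if their boxes meet. -/
def HasBoxRep {V : Type} (G : SimpleGraph V) (d : ℕ) : Prop :=
  ∃ l r : V → Fin d → ℝ, (∀ v, l v ≤ r v) ∧
    ∀ u v, u ≠ v → (G.Adj u v ↔ (Set.Icc (l u) (r u) ∩ Set.Icc (l v) (r v)).Nonempty)

/-- The boxicity: the least dimension of a box representation. -/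
noncomputable def boxicity {V : Type} (G : SimpleGraph V) : ℕ := sInf {d | HasBoxRep G d}

end Pool.Agent.H236Z.Box
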