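import Pool.Agent.H236Z.Box.Defs
import Pool.Agent.H236Z.Book.Model

namespace Pool.Agent.H236Z.Box

open Finset Pool.Agent.H236Z.Book

theorem hasBoxRep_iff {V : Type} (G : SimpleGraph V) (d : ℕ) : HasBoxRep G d ↔
    ∃ l r : V → Fin d → ℝ, (∀ v i, l v i ≤ r v i) ∧
      ∀ u v, u ≠ v → (G.Adj u v ↔ ∀ i, l u i ≤ r v i ∧ l v i ≤ r u i) := by
  refine exists_congr fun l => exists_congr fun r => and_congr_right fun h => ?_
  refine forall_congr' fun u => forall_congr' fun v => forall_congr' fun _ => iff_congr Iff.rfl ?_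
  rw [Set.Icc_inter_Icc, Set.nonempty_Icc, sup_le_iff, le_inf_iff, le_inf_iff]
  exact ⟨fun h1 i => ⟨h1.1.2 i, h1.2.1 i⟩,
    fun h1 => ⟨⟨h u, fun i => (h1 i).1⟩, fun i => (h1 i).2, h v⟩⟩

theorem HasBoxRep.mono {V : Type} {G : SimpleGraph V} {d e : ℕ} (hde : d ≤ e)
    (h : HasBoxRep G d) : HasBoxRep G e := by
  rw [hasBoxRep_iff] at h ⊢
  obtain ⟨l, r, h1, h2⟩ := h
  refine ⟨fun v i => if hi : i.val < d then l v ⟨i, hi⟩ else 0,
    fun v i => if hi : i.val < d then r v ⟨i, hi⟩ else 0, fun v i => ?_, fun u v huv => ?_⟩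
  · dsimp only
    split_ifs
    · exact h1 _ _
    · exact le_rfl
  · rw [h2 u v huv]
    constructor
    · intro h3 i
      dsimp only
      split_ifs
      · exact h3 _
      · exact ⟨le_rfl, le_rfl⟩
    · intro h3 i
      have := h3 (Fin.castLE hde i)
      simpa using this

theorem exists_boxRep {n : ℕ} (G : SimpleGraph (Fin n)) : HasBoxRep G n := by
  classical
  rw [hasBoxRep_iff]
  refine ⟨fun v i => if v = i ∨ G.Adj v i then 0 else 1, fun v i => if v = i then 0 else 1,
    fun v i => ?_, fun u v huv => ⟨fun h i => ?_, fun h => ?_⟩⟩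
  · dsimp only
    by_cases h : v = i
    · simp [h]
    · rw [if_neg h]; split_ifs <;> norm_num
  · dsimp only
    by_cases h1 : u = i
    · subst h1
      simp [h.symm, huv.symm]
    · by_cases h2 : v = i
      · subst h2
        simp [h, huv]
      · rw [if_neg h1, if_neg h2]
        constructor <;> split_ifs <;> norm_num
  · by_contra hn
    have := (h u).2
    have hn' : ¬ G.Adj v u := fun h => hn h.symm
    simp [huv.symm, hn'] at this
    linarith

theorem boxicity_le_iff {n : ℕ} (G : SimpleGraph (Fin n)) (k : ℕ) :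
    boxicity G ≤ k ↔ HasBoxRep G k :=
  ⟨fun h => HasBoxRep.mono h (Nat.sInf_mem (show {d | HasBoxRep G d}.Nonempty from ⟨n, exists_boxRep G⟩)), fun h => Nat.sInf_le h⟩

/-- The coloured vertices: ruler, walls, ends, root, backbones and ticks. -/
inductive Hx : Type
  | w (i : ℕ) | wl (b c : ℕ) | en (e : ℕ) | rt | bb (j t : ℕ) | tk (j t : ℕ)
  deriving DecidableEq

/-- All vertices: the hubs and the coloured vertices. -/
inductive Vb : Type
  | hA | hB | hb (j k : ℕ) | h (x : Hx)
  deriving DecidableEq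

variable (p : Par)

def Mb : ℕ := 12 * ∑ j ∈ range p.m, p.s j + 6
def base (j : ℕ) : ℕ := 2 * p.P + 2 + j * Mb p
def M0 : ℕ := 2 * p.P + 2 + p.m * Mb p

def hval : Hx → Prop
  | .w i => i < p.P
  | .wl b c => b ≤ p.K ∧ c < 2
  | .en e => e < 2
  | .rt => True
  | .bb j t => j < p.m ∧ t ≤ 6 * p.s j + 1
  | .tk j t => j < p.m ∧ t ≤ 6 * p.s j

def col : Hx → ℕ
  | .w i => i % 2
  | .wl _ c => 2 + c
  | .en _ => 4
  | .rt => 4
  | .bb _ t => 2 + t % 2
  | .tk _ t => t % 2

def lo : Hx → ℕ
  | .w i => 2 * i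
  | .wl b _ => 2 * p.a b
  | .en e => 2 * p.a (e * p.K)
  | .rt => 0
  | .bb j t => base p j + 2 * t
  | .tk j t => base p j + 2 * t + 2

def hi : Hx → ℕ
  | .w i => 2 * i + 2
  | .wl b _ => 2 * p.a b
  | .en e => 2 * p.a (e * p.K)
  | .rt => M0 p
  | .bb j t => base p j + 2 * t + 2
  | .tk j t => base p j + 2 * t + 2

/-- Adjacency of coloured vertices. -/
def HAdj (x y : Hx) : Prop := col x ≠ col y ∧ lo p x ≤ hi p y ∧ lo p y ≤ hi p x

/-- The side of the colour `c` in the auxiliary dimension `j`. -/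
def side (j c : ℕ) : Prop := (j / 2 = 0 ∧ (c = 1 ∨ c = 3)) ∨ (j / 2 = 1 ∧ (c = 2 ∨ c = 3)) ∨
  (j / 2 = 2 ∧ c = 4)

instance (j c : ℕ) : Decidable (side j c) := by unfold side; infer_instance

def hubAdj (j k c : ℕ) : Prop := k = 1 ∨ (k = 0 ∧ ¬ side j c) ∨ (k = 2 ∧ side j c)

def valid : Vb → Prop
  | .hA => True
  | .hB => True
  | .hb j k => j < 6 ∧ k < 3
  | .h x => hval p x

def Adj : Vb → Vb → Prop
  | .hA, .hb _ _ => True
  | .hA, .h _ => True
  | .hB, .hb _ _ => True
  | .hb _ _, .hA => True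
  | .hb _ _, .hB => True
  | .hb j _, .hb j' _ => j ≠ j'
  | .hb j k, .h x => hubAdj j k (col x)
  | .h _, .hA => True
  | .h x, .hb j k => hubAdj j k (col x)
  | .h x, .h y => HAdj p x y
  | _, _ => False

/-- A properly coloured interval model containing the edges. -/
def ICG : Prop := ∃ l r : Hx → ℝ, (∀ x, hval p x → l x ≤ r x) ∧
  (∀ x y, hval p x → hval p y → HAdj p x y → l x ≤ r y) ∧
  ∀ x y, hval p x → hval p y → x ≠ y → col x = col y → r x < l y ∨ r y < l x

/-- `G` is a copy of the graph of `p`. -/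
structure IsModel {V : Type} (G : SimpleGraph V) (φ : V → Vb) : Prop where
  inj : Function.Injective φ
  val : ∀ v, valid p (φ v)
  surj : ∀ x, valid p x → ∃ v, φ v = x
  adj : ∀ u v, G.Adj u v ↔ Adj p (φ u) (φ v)

variable {p}

theorem HAdj.symm {x y : Hx} (h : HAdj p x y) : HAdj p y x := ⟨h.1.symm, h.2.2, h.2.1⟩

theorem Adj.symm {x y : Vb} (h : Adj p x y) : Adj p y x := by
  cases x <;> cases y <;> first | exact h | exact Ne.symm h | exact HAdj.symm h

theorem Adj.irrefl {x : Vb} (h : Adj p x x) : False := by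
  cases x <;> first | exact h | exact h rfl | exact h.1 rfl

theorem item_bd {j : ℕ} (hj : j < p.m) : 12 * p.s j + 6 ≤ Mb p ∧ base p j + Mb p ≤ M0 p := by
  have h1 : p.s j ≤ ∑ j ∈ range p.m, p.s j :=
    single_le_sum (f := p.s) (fun _ _ => Nat.zero_le _) (mem_range.2 hj)
  have h3 : (j + 1) * Mb p ≤ p.m * Mb p := Nat.mul_le_mul_right _ hj
  rw [Nat.succ_mul] at h3
  unfold base M0
  refine ⟨by unfold Mb; omega, by omega⟩

theorem base_step {j j' : ℕ} (h : j < j') : base p j + Mb p ≤ base p j' := by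
  have h3 : (j + 1) * Mb p ≤ j' * Mb p := Nat.mul_le_mul_right _ h
  rw [Nat.succ_mul] at h3
  unfold base; omega

theorem base_ge (j : ℕ) : 2 * p.P + 2 ≤ base p j := by unfold base; omega

theorem en_lt {e : ℕ} (he : e < 2) : p.a (e * p.K) < p.P := by
  apply Par.a_lt_P
  have : e = 0 ∨ e = 1 := by omega
  rcases this with rfl | rfl <;> omega

theorem lo_le_hi (x : Hx) : lo p x ≤ hi p x := by
  cases x <;> simp only [lo, hi] <;> omega

theorem hi_le {x : Hx} (hx : hval p x) : hi p x ≤ M0 p := by
  have h0 : 2 * p.P + 2 ≤ M0 p := by unfold M0; omega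
  cases x with
  | w i => have : i < p.P := hx; simp only [hi]; omega
  | wl b c => have := Par.a_lt_P hx.1; simp only [hi]; omega
  | en e => have := en_lt (p := p) hx; simp only [hi]; omega
  | rt => exact le_rfl
  | bb j t => have := item_bd hx.1; have := hx.2; simp only [hi]; omega
  | tk j t => have := item_bd hx.1; have := hx.2; simp only [hi]; omega

theorem col_lt {x : Hx} (hx : hval p x) : col x < 5 := by
  cases x with
  | wl b c => have := hx.2; simp only [col]; omega
  | _ => simp only [col]; omega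

/-! ### Boxes and coloured intervals -/

theorem icg_of_box {V : Type} {G : SimpleGraph V} {φ : V → Vb} (hM : IsModel p G φ)
    (h : HasBoxRep G 7) : ICG p := by
  classical
  rw [hasBoxRep_iff] at h
  obtain ⟨l0, r0, h1, h2⟩ := h
  obtain ⟨v0, -⟩ := hM.surj .hA trivial
  have : Nonempty V := ⟨v0⟩
  let ψ : Vb → V := Function.invFun φ
  have hψ : ∀ x, valid p x → φ (ψ x) = x := fun x hx => Function.invFun_eq (hM.surj x hx)
  let l : Vb → Fin 7 → ℝ := fun x => l0 (ψ x)
  let r : Vb → Fin 7 → ℝ := fun x => r0 (ψ x)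
  have key : ∀ x y, valid p x → valid p y → x ≠ y →
      (Adj p x y ↔ ∀ i, l x i ≤ r y i ∧ l y i ≤ r x i) := by
    intro x y hx hy hne
    rw [← h2 (ψ x) (ψ y) (fun e => hne (by rw [← hψ x hx, ← hψ y hy, e])), hM.adj, hψ x hx, hψ y hy]
  have meet : ∀ x y, valid p x → valid p y → Adj p x y → ∀ i, l x i ≤ r y i := by
    intro x y hx hy hxy i
    exact ((key x y hx hy (fun e => Adj.irrefl (e ▸ hxy))).1 hxy i).1
  have sep : ∀ x y, valid p x → valid p y → x ≠ y → ¬ Adj p x y →
      ∃ i, r x i < l y i ∨ r y i < l x i := by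
    intro x y hx hy hne hn
    rw [key x y hx hy hne] at hn
    push Not at hn
    obtain ⟨i, hi⟩ := hn
    by_cases h3 : l x i ≤ r y i
    · exact ⟨i, Or.inl (hi h3)⟩
    · exact ⟨i, Or.inr (not_le.1 h3)⟩
  have c4 : ∀ x y z w i, valid p x → valid p y → valid p z → valid p w →
      (r x i < l y i ∨ r y i < l x i) → (r z i < l w i ∨ r w i < l z i) → Adj p x z → Adj p x w →
      Adj p y z → Adj p y w → False := by
    intro x y z w i hx hy hz hw s1 s2 a1 a2 a3 a4
    have b1 := meet _ _ hx hz a1 i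
    have b2 := meet _ _ hx hw a2 i
    have b3 := meet _ _ hy hz a3 i
    have b4 := meet _ _ hy hw a4 i
    have b5 := meet _ _ hz hx a1.symm i
    have b6 := meet _ _ hw hx a2.symm i
    have b7 := meet _ _ hz hy a3.symm i
    have b8 := meet _ _ hw hy a4.symm i
    rcases s1 with s1 | s1 <;> rcases s2 with s2 | s2 <;> linarith
  obtain ⟨i0, hi0⟩ := sep .hA .hB trivial trivial (by simp) (fun h => h)
  refine ⟨fun x => l (.h x) i0, fun x => r (.h x) i0, fun x _ => h1 _ _,
    fun x y hx hy hxy => meet (.h x) (.h y) hx hy hxy i0, fun x y hx hy hne hc => ?_⟩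
  let k : ℕ → ℕ := fun j => if side j (col x) then 2 else 0
  have hk : ∀ j, k j < 3 ∧ k j ≠ 1 ∧ hubAdj j (k j) (col x) := by
    intro j
    simp only [k, hubAdj]
    split_ifs with h <;> simp [h]
  have hs : ∀ j : Fin 6, ∃ i, r (.hb j 1) i < l (.hb j (k j)) i ∨
      r (.hb j (k j)) i < l (.hb j 1) i := fun j =>
    sep _ _ ⟨j.2, by norm_num⟩ ⟨j.2, (hk j).1⟩ (by simpa using (hk j).2.1.symm) (fun h => h rfl)
  choose ι hι using hs
  obtain ⟨i, hi⟩ := sep (.h x) (.h y) hx hy (by simpa using hne) (fun h => h.1 hc)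
  have v1 : ∀ j : Fin 6, valid p (.hb j 1) := fun j => ⟨j.2, by norm_num⟩
  have v2 : ∀ j : Fin 6, valid p (.hb j (k j)) := fun j => ⟨j.2, (hk j).1⟩
  have n0 : ∀ j, ι j ≠ i0 := by
    intro j e
    exact c4 _ _ .hA .hB i0 (v1 j) (v2 j) trivial trivial (e ▸ hι j) hi0 trivial trivial trivial
      trivial
  have n1 : ∀ j, ι j ≠ i := by
    intro j e
    exact c4 _ _ (.h x) (.h y) i (v1 j) (v2 j) hx hy (e ▸ hι j) hi (Or.inl rfl) (Or.inl rfl)
      (hk j).2.2 (show hubAdj j (k j) (col y) from hc ▸ (hk j).2.2)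
  have n2 : Function.Injective ι := by
    intro j j' e
    by_contra hne'
    have hne2 : (j : ℕ) ≠ j' := fun h => hne' (Fin.ext h)
    exact c4 _ _ _ _ (ι j') (v1 j) (v2 j) (v1 j') (v2 j') (e ▸ hι j) (hι j') hne2 hne2 hne2 hne2
  have e : i = i0 := by
    by_contra hne'
    have h3 : (insert i (insert i0 (univ.image ι))).card ≤ 7 := by
      simpa using card_le_univ (insert i (insert i0 (univ.image ι)))
    rw [card_insert_of_notMem, card_insert_of_notMem, card_image_of_injective _ n2] at h3
    · simp at h3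
    · simpa using n0
    · simp only [mem_insert, mem_image, mem_univ, true_and, not_or, not_exists]
      exact ⟨hne', n1⟩
  exact e ▸ hi

theorem side_sep {c c' : ℕ} (hc : c < 5) (hc' : c' < 5) (hne : c ≠ c') :
    ∃ b < 3, ∀ j, j / 2 = b → (side j c ↔ ¬ side j c') := by
  unfold side
  by_cases h0 : c % 2 = c' % 2
  · by_cases h1 : c = 4 ∨ c' = 4
    · by_cases h2 : c = 2 ∨ c' = 2
      · exact ⟨1, by omega, fun j hj => by omega⟩
      · exact ⟨2, by omega, fun j hj => by omega⟩
    · exact ⟨1, by omega, fun j hj => by omega⟩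
  · exact ⟨0, by omega, fun j hj => by omega⟩

variable (p) in
/-- Left ends in the auxiliary dimensions. -/
def auxL : Vb → ℕ → ℤ
  | .hb j k, i => if j = i ∧ k = 1 then -1 else if j = i ∧ k = 2 then M0 p + 3 else -3
  | .h x, i => if side i (col x) then (if i % 2 = 0 then lo p x else M0 p - hi p x) else -3
  | _, _ => -3

variable (p) in
/-- Right ends in the auxiliary dimensions. -/
def auxR : Vb → ℕ → ℤ
  | .hb j k, i => if j = i ∧ k = 1 then M0 p + 1 else if j = i ∧ k = 0 then -3 else M0 p + 3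
  | .h x, i => if side i (col x) then M0 p + 3 else (if i % 2 = 0 then hi p x else M0 p - lo p x)
  | _, _ => M0 p + 3

theorem aux_bd {x : Vb} (hx : valid p x) (i : ℕ) :
    -3 ≤ auxL p x i ∧ auxL p x i ≤ auxR p x i ∧ auxR p x i ≤ M0 p + 3 := by
  cases x with
  | hb j k => simp only [auxL, auxR]; split_ifs <;> omega
  | h x =>
    have h1 := lo_le_hi (p := p) x
    have h2 := hi_le hx
    simp only [auxL, auxR]; split_ifs <;> omega
  | _ => simp only [auxL, auxR]; omega

theorem aux_meet {x y : Vb} (hx : valid p x) (hy : valid p y) (h : Adj p x y) (i : ℕ) :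
    auxL p x i ≤ auxR p y i := by
  have b1 := aux_bd hx i
  have b2 := aux_bd hy i
  cases x with
  | hA => simp only [auxL] at *; omega
  | hB => simp only [auxL] at *; omega
  | hb j k =>
    cases y with
    | hA => simp only [auxR] at *; omega
    | hB => simp only [auxR] at *; omega
    | hb j' k' =>
      have : j ≠ j' := h
      simp only [auxL, auxR]; split_ifs <;> omega
    | h y =>
      have h1 := lo_le_hi (p := p) y
      have h2 := hi_le hy
      have h3 : hubAdj j k (col y) := h
      unfold hubAdj at h3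
      simp only [auxL, auxR]
      by_cases e : j = i
      · subst e
        by_cases hs : side j (col y)
        · simp only [hs, not_true_eq_false, and_false, and_true, false_or, if_true, true_and] at h3 ⊢
          split_ifs <;> omega
        · simp only [hs, not_false_eq_true, and_false, and_true, or_false, if_false, true_and] at h3 ⊢
          split_ifs <;> omega
      · split_ifs <;> omega
  | h x =>
    have h1 := lo_le_hi (p := p) x
    have h2 := hi_le hx
    cases y with
    | hA => simp only [auxR] at *; omega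
    | hB => exact h.elim
    | hb j k =>
      have h3 : hubAdj j k (col x) := h
      unfold hubAdj at h3
      simp only [auxL, auxR]
      by_cases e : j = i
      · subst e
        by_cases hs : side j (col x)
        · simp only [hs, not_true_eq_false, and_false, and_true, false_or, if_true, true_and] at h3 ⊢
          split_ifs <;> omega
        · simp only [hs, not_false_eq_true, and_false, and_true, or_false, if_false, true_and] at h3 ⊢
          split_ifs <;> omega
      · split_ifs <;> omega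
    | h y =>
      have h3 := lo_le_hi (p := p) y
      have h4 := hi_le hy
      obtain ⟨-, h5, h6⟩ := h
      simp only [auxL, auxR]
      split_ifs <;> omega

end Pool.Agent.H236Z.Box
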