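import Pool.Agent.H236Z.Box.Compl
import Pool.Agent.H236Z.Book.Main

namespace Pool.Agent.H236Z.Box

open Finset Pool.Agent.NPC Pool.Agent.H236Z.Book Pool.Agent.NPC.H634R2 Pool.Agent.H820R2.SC

def code (p : Book.Par) : Vb → Code
  | .hA => (0, 0, 0, 0)
  | .hB => (1, 0, 0, 0)
  | .hb j k => (2, j, k, 0)
  | .h x => (3, col x, lo p x, hi p x)

def sideB (j c : ℕ) : Bool :=
  (decide (j / 2 = 0) && (decide (c = 1) || decide (c = 3))) ||
  ((decide (j / 2 = 1) && (decide (c = 2) || decide (c = 3))) ||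
  (decide (j / 2 = 2) && decide (c = 4)))

def hubB (j k c : ℕ) : Bool :=
  decide (k = 1) || ((decide (k = 0) && !sideB j c) || (decide (k = 2) && sideB j c))

def AB (x y : Code) : Bool :=
  (decide (x.1 = 0) && (decide (y.1 = 2) || decide (y.1 = 3))) ||
  ((decide (x.1 = 1) && decide (y.1 = 2)) ||
  ((decide (x.1 = 2) && (decide (y.1 = 0) || (decide (y.1 = 1) ||
    ((decide (y.1 = 2) && !decide (x.2.1 = y.2.1)) ||
    (decide (y.1 = 3) && hubB x.2.1 x.2.2.1 y.2.1))))) ||
  (decide (x.1 = 3) && (decide (y.1 = 0) || ((decide (y.1 = 2) && hubB y.2.1 y.2.2.1 x.2.1) ||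
    (decide (y.1 = 3) && (!decide (x.2.1 = y.2.1) &&
      (decide (x.2.2.1 ≤ y.2.2.2) && decide (y.2.2.1 ≤ x.2.2.2)))))))))

theorem sideB_iff (j c : ℕ) : sideB j c = true ↔ side j c := by
  simp only [sideB, side, Bool.or_eq_true, Bool.and_eq_true, decide_eq_true_eq]

theorem hubB_iff (j k c : ℕ) : hubB j k c = true ↔ hubAdj j k c := by
  simp [hubB, hubAdj, ← sideB_iff]

theorem AB_iff (p : Book.Par) (x y : Vb) : AB (code p x) (code p y) = true ↔ Adj p x y := by
  cases x <;> cases y <;> simp [AB, code, Adj, HAdj, hubB_iff]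

def hubs : List Vb := [.hA, .hB, .h (.en 0), .h (.en 1), .h .rt] ++
  (List.range 6).flatMap fun j => (List.range 3).map (Vb.hb j)

def VL (s tg : List ℕ) : List Vb :=
  hubs ++ (((List.range (PL s tg)).map fun i => Vb.h (.w i)) ++
    (((List.range 2).flatMap fun c => (List.range (tg.length + 2)).map fun b => Vb.h (.wl b c)) ++
    (((List.range s.length).flatMap fun j =>
      (List.range (6 * s.getD j 0 + 1 + 1)).map fun t => Vb.h (.bb j t)) ++
    ((List.range s.length).flatMap fun j =>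
      (List.range (6 * s.getD j 0 + 1)).map fun t => Vb.h (.tk j t)))))

def baseL (s tg : List ℕ) (j : ℕ) : ℕ := 2 * PL s tg + 2 + j * (12 * s.sum + 6)

def CL (s tg : List ℕ) : List Code :=
  ([(0, 0, 0, 0), (1, 0, 0, 0), (3, 4, 2, 2),
    (3, 4, 2 * aL s tg (tg.length + 1), 2 * aL s tg (tg.length + 1)),
    (3, 4, 0, baseL s tg s.length)] ++
    (List.range 6).flatMap fun j => (List.range 3).map fun k => (2, j, k, 0)) ++
  (((List.range (PL s tg)).map fun i => (3, i % 2, 2 * i, 2 * i + 2)) ++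
    (((List.range 2).flatMap fun c => (List.range (tg.length + 2)).map
      fun b => (3, 2 + c, 2 * aL s tg b, 2 * aL s tg b)) ++
    (((List.range s.length).flatMap fun j => (List.range (6 * s.getD j 0 + 1 + 1)).map
      fun t => (3, 2 + t % 2, baseL s tg j + 2 * t, baseL s tg j + 2 * t + 2)) ++
    ((List.range s.length).flatMap fun j => (List.range (6 * s.getD j 0 + 1)).map
      fun t => (3, t % 2, baseL s tg j + 2 * t + 2, baseL s tg j + 2 * t + 2)))))

theorem baseL_eq (s tg : List ℕ) (j : ℕ) : baseL s tg j = base (par s tg) j := by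
  unfold baseL base Mb
  rw [PL_eq, ← sum_getD s]; rfl

theorem CL_eq (s tg : List ℕ) : CL s tg = (VL s tg).map (code (par s tg)) := by
  simp only [CL, VL, hubs, List.map_append, List.map_map, List.map_flatMap, baseL_eq]
  congr 2
  · simp only [List.map_cons, List.map_nil, code, col, lo, hi, zero_mul, one_mul, Book.Par.a_zero,
      aL_eq s tg le_rfl]
    rfl
  · congr 1
    refine List.flatMap_congr fun c _ => List.map_congr_left fun b hb => ?_
    rw [aL_eq s tg (Nat.lt_succ_iff.1 (List.mem_range.1 hb))]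
    rfl

theorem mem_VL (s tg : List ℕ) (x : Vb) : x ∈ VL s tg ↔ valid (par s tg) x := by
  cases x with
  | hA => simp [VL, hubs, valid]
  | hB => simp [VL, hubs, valid]
  | hb j k => simp [VL, hubs, valid]
  | h x =>
    cases x with
    | w i => simp [VL, hubs, valid, hval, PL_eq]
    | wl b c =>
      simp only [VL, hubs, valid, hval, par]
      simp
      omega
    | en e =>
      simp only [VL, hubs, valid, hval]
      simp
      omega
    | rt => simp [VL, hubs, valid, hval]
    | bb j t =>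
      simp only [VL, hubs, valid, hval, par]
      simp [Nat.lt_succ_iff]
    | tk j t =>
      simp only [VL, hubs, valid, hval, par]
      simp [Nat.lt_succ_iff]

theorem nodup_flat {β : Type} (n : ℕ) (k : ℕ → ℕ) (g : ℕ → ℕ → β)
    (hg : ∀ a b a' b', g a b = g a' b' → a = a' ∧ b = b') :
    ((List.range n).flatMap fun j => (List.range (k j)).map (g j)).Nodup := by
  rw [List.nodup_flatMap]
  refine ⟨fun j _ => List.nodup_range.map fun a b h => (hg _ _ _ _ h).2, List.nodup_range.imp ?_⟩
  intro j j' hne x h1 h2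
  obtain ⟨t, -, rfl⟩ := List.mem_map.1 h1
  obtain ⟨t', -, e⟩ := List.mem_map.1 h2
  exact hne (hg _ _ _ _ e).1.symm

theorem nodup_VL (s tg : List ℕ) : (VL s tg).Nodup := by
  unfold VL
  refine List.Nodup.append (by decide) (List.Nodup.append
    (List.nodup_range.map fun a b h => by simpa using h) (List.Nodup.append
    (nodup_flat _ _ (fun c b => Vb.h (.wl b c)) fun a b a' b' h => by simpa [and_comm] using h)
    (List.Nodup.append
    (nodup_flat _ _ (fun j t => Vb.h (.bb j t)) fun a b a' b' h => by simpa using h)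
    (nodup_flat _ _ (fun j t => Vb.h (.tk j t)) fun a b a' b' h => by simpa using h) ?_) ?_) ?_) ?_
  · intro x h1 h2
    obtain ⟨j, -, h3⟩ := List.mem_flatMap.1 h1
    obtain ⟨t, -, rfl⟩ := List.mem_map.1 h3
    simp at h2
  · intro x h1 h2
    obtain ⟨j, -, h3⟩ := List.mem_flatMap.1 h1
    obtain ⟨t, -, rfl⟩ := List.mem_map.1 h3
    simp at h2
  · intro x h1 h2
    obtain ⟨t, -, rfl⟩ := List.mem_map.1 h1
    simp at h2
  · intro x h1 h2
    simp only [List.mem_append, List.mem_map, List.mem_flatMap] at h2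
    rcases h2 with ⟨_, -, rfl⟩ | ⟨_, -, _, -, rfl⟩ | ⟨_, -, _, -, rfl⟩ | ⟨_, -, _, -, rfl⟩ <;>
      simp [hubs] at h1

def mtx (s tg : List ℕ) : List (List Bool) :=
  (CL s tg).map fun x => (CL s tg).map fun y => AB x y

theorem model (s tg : List ℕ) : ∃ G : SimpleGraph (Fin (VL s tg).length),
    adjMat G = mtx s tg ∧ IsModel (par s tg) G (fun i => (VL s tg).get i) := by
  classical
  have hval : ∀ i, valid (par s tg) ((VL s tg).get i) := fun i =>
    (mem_VL s tg _).1 (List.get_mem _ _)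
  refine ⟨{ Adj := fun i j => Adj (par s tg) ((VL s tg).get i) ((VL s tg).get j)
            symm := ⟨fun i j hij => hij.symm⟩
            loopless := ⟨fun i hi => hi.irrefl⟩ }, ?_, ?_, hval, ?_, fun _ _ => Iff.rfl⟩
  · unfold adjMat mtx
    rw [CL_eq, List.map_map, map_eq_ofFn]
    congr 1
    funext i
    simp only [Function.comp]
    rw [List.map_map, map_eq_ofFn]
    congr 1
    funext j
    rw [Bool.eq_iff_iff]
    simp only [Function.comp, decide_eq_true_eq]
    rw [AB_iff]
  · exact List.nodup_iff_injective_get.1 (nodup_VL s tg)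
  · intro x hx
    exact List.mem_iff_get.1 ((mem_VL s tg x).2 hx)

section poly

variable {α : Type} [TEnc α] {s tg : α → List ℕ}

theorem p_sideB {j c : α → ℕ} (hj : Poly j) (hc : Poly c) : Poly fun a => sideB (j a) (c a) := by
  unfold sideB
  fun_prop

theorem p_hubB {j k c : α → ℕ} (hj : Poly j) (hk : Poly k) (hc : Poly c) :
    Poly fun a => hubB (j a) (k a) (c a) := by
  have h := p_sideB hj hc
  unfold hubB
  fun_prop

theorem p_AB {x y : α → Code} (hx : Poly x) (hy : Poly y) : Poly fun a => AB (x a) (y a) := by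
  have h1 := p_hubB (j := fun a => (x a).2.1) (k := fun a => (x a).2.2.1) (c := fun a => (y a).2.1)
    (by fun_prop) (by fun_prop) (by fun_prop)
  have h2 := p_hubB (j := fun a => (y a).2.1) (k := fun a => (y a).2.2.1) (c := fun a => (x a).2.1)
    (by fun_prop) (by fun_prop) (by fun_prop)
  unfold AB
  fun_prop

theorem p_baseL (hs : Poly s) (ht : Poly tg) {b : α → ℕ} (hb : Poly b) :
    Poly fun a => baseL (s a) (tg a) (b a) := by
  have h := p_PL hs ht
  unfold baseL
  fun_prop

theorem p_CL (hs : Poly s) (ht : Poly tg) {N : α → ℕ} (hN : UPoly N)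
    (h1 : ∀ a, (tg a).sum ≤ (s a).sum) (h2 : ∀ a, (s a).sum ≤ N a) :
    Poly fun a => CL (s a) (tg a) := by
  have uP : UPoly fun a => PL (s a) (tg a) :=
    UPoly.of_le (p_PL hs ht) ((((UPoly.const 6).mul hN).add ((UPoly.const 2).mul
      ((UPoly.length ht).add (UPoly.const 1)))).add (UPoly.const 2)) fun a => by
        rw [PL_le (h1 a)]
        have := h2 a
        omega
  have r1 : Poly fun a => List.range (PL (s a) (tg a)) := uP.range
  have r2 : Poly fun a => List.range (s a).length := (UPoly.length hs).range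
  have r3 : Poly fun p : α × ℕ => List.range (6 * (s p.1).getD p.2 0 + 1) := by
    refine UPoly.range (UPoly.of_le (by fun_prop) (((UPoly.const 6).mul
      (hN.comp (Poly.fst Poly.id))).add (UPoly.const 1)) fun p => ?_)
    have := getD_le_sum (s p.1) p.2
    have := h2 p.1
    omega
  have r4 : Poly fun p : α × ℕ => List.range (6 * (s p.1).getD p.2 0 + 1 + 1) := by
    refine UPoly.range (UPoly.of_le (by fun_prop) (((UPoly.const 6).mul
      (hN.comp (Poly.fst Poly.id))).add (UPoly.const 2)) fun p => ?_)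
    have := getD_le_sum (s p.1) p.2
    have := h2 p.1
    omega
  have r5 : Poly fun a => List.range ((tg a).length + 2) :=
    ((UPoly.length ht).add (UPoly.const 2)).range
  have a1 : Poly fun a => aL (s a) (tg a) ((tg a).length + 1) := p_aL hs ht (by fun_prop)
  have a2 : Poly fun a => baseL (s a) (tg a) (s a).length := p_baseL hs ht (by fun_prop)
  have a3 : Poly fun p : (α × ℕ) × ℕ => aL (s p.1.1) (tg p.1.1) p.2 :=
    p_aL (by fun_prop) (by fun_prop) (by fun_prop)
  have a4 : Poly fun p : (α × ℕ) × ℕ => baseL (s p.1.1) (tg p.1.1) p.1.2 :=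
    p_baseL (by fun_prop) (by fun_prop) (by fun_prop)
  unfold CL
  refine Poly.append (Poly.append (by fun_prop) (NPC.Poly.const _))
    (Poly.append (NPC.Poly.map r1 (by fun_prop)) (Poly.append
    (Poly.flatMap (NPC.Poly.const _) (NPC.Poly.map (r5.comp (Poly.fst Poly.id)) (by fun_prop)))
    (Poly.append (Poly.flatMap r2 (NPC.Poly.map r4 (by fun_prop)))
      (Poly.flatMap r2 (NPC.Poly.map r3 (by fun_prop))))))

theorem p_mtx (hs : Poly s) (ht : Poly tg) {N : α → ℕ} (hN : UPoly N)
    (h1 : ∀ a, (tg a).sum ≤ (s a).sum) (h2 : ∀ a, (s a).sum ≤ N a) :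
    Poly fun a => mtx (s a) (tg a) := by
  have hC := p_CL hs ht hN h1 h2
  unfold mtx
  exact NPC.Poly.map hC (NPC.Poly.map (hC.comp (Poly.fst Poly.id))
    (p_AB (Poly.snd (Poly.fst Poly.id)) (Poly.snd Poly.id)))

end poly

theorem hard : HardPr (fun M : List (List Bool) × ℕ => ∃ (n : ℕ) (G : SimpleGraph (Fin n)),
      adjMat G = M.1 ∧ M.2 = 7 ∧ treewidth G ≤ 25)
    (fun M => ∀ (n : ℕ) (G : SimpleGraph (Fin n)), adjMat G = M.1 → boxicity G ≤ 7) := by
  obtain ⟨F, hF, hF'⟩ := poly_inst
  obtain ⟨N, hN, hN'⟩ := tOf_inst_le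
  let inp : List Cl3 → Inp := fun φ => (3 * φ.length, xb φ, List.replicate φ.length ())
  have hinp : Poly inp :=
    Poly.pair (by fun_prop) (Poly.pair poly_xb (UPoly.length Poly.id))
  have e : ∀ φ, F (inp φ) = inst (3 * φ.length) φ.length (xb φ) := fun φ =>
    hF' _ _ _ (length_xb φ)
  have hA : ∀ φ, Adm (F (inp φ)).1 (F (inp φ)).2 := fun φ => by rw [e]; exact adm_inst _ _ _
  have hpoly : Poly fun φ => (mtx (F (inp φ)).1 (F (inp φ)).2, 7) :=
    Poly.pair (p_mtx (Poly.fst (hF.comp hinp)) (Poly.snd (hF.comp hinp)) (hN.comp hinp)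
      (fun φ => (hA φ).le) fun φ => (sum_le_tOf (hA φ)).trans (by
        rw [e]; exact hN' _ _ _ (length_xb φ))) (NPC.Poly.const _)
  refine hardI_SAT3.toHardPr.trans hpoly (fun φ _ => ?_) fun φ _ => ?_
  · obtain ⟨G, h1, h2⟩ := model (F (inp φ)).1 (F (inp φ)).2
    exact ⟨_, G, h1, rfl, tw_le (Nat.le_add_left _ _) h2⟩
  · obtain ⟨G, h1, h2⟩ := model (F (inp φ)).1 (F (inp φ)).2
    have key : SAT3 φ ↔ boxicity G ≤ 7 := by
      rw [boxicity_le_iff, box_iff (Nat.le_add_left _ _) h2, pack_iff (hA φ).le, e, packL_inst,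
        clq_iff, clq_iff_sat]
    rw [key]
    constructor
    · intro h n G' h3
      obtain ⟨rfl, h4⟩ := matOf_injective (show matOf G = matOf G' from h1.trans h3.symm)
      exact h4 ▸ h
    · intro h
      exact h _ G h1

theorem main : ∀ L : Set (List Bool), InNP L → ∃ f : List Bool → List Bool, PolyTime f ∧
    ∀ x, ∃ (n : ℕ) (G : SimpleGraph (Fin n)), f x = bits (adjMat G, (7 : ℕ)) ∧ treewidth G ≤ 25 ∧
      (x ∈ L ↔ boxicity G ≤ 7) := by
  intro L hL
  obtain ⟨f, h1, h2, h3⟩ := hard L hL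
  refine ⟨fun x => bits (f x), PC.toPolyTime h1, fun x => ?_⟩
  obtain ⟨n, G, h4, h5, h6⟩ := h2 x
  refine ⟨n, G, by rw [h4, ← h5], h6, (h3 x).trans ⟨fun h => h n G h4, fun h n' G' h6 => ?_⟩⟩
  obtain ⟨rfl, h7⟩ := matOf_injective (show matOf G = matOf G' from h4.trans h6.symm)
  exact h7 ▸ h

end Pool.Agent.H236Z.Box
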