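import Pool.Agent.H236Z.Box.Graph

namespace Pool.Agent.H236Z.Box

open Finset Pool.Agent.H236Z.Book

variable {p : Par}

/-- A properly coloured interval model with natural endpoints. -/
structure ICN (p : Par) (l r : Hx → ℕ) : Prop where
  le : ∀ x, hval p x → l x ≤ r x
  meet : ∀ x y, hval p x → hval p y → HAdj p x y → l x ≤ r y
  sep : ∀ x y, hval p x → hval p y → x ≠ y → col x = col y → r x < l y ∨ r y < l x

def zL (l : Hx → ℕ) (B : ℕ) : Vb → ℤ
  | .hB => B + 1
  | .h x => l x
  | _ => 0

def zR (r : Hx → ℕ) (B : ℕ) : Vb → ℤ
  | .hA => B
  | .h x => r x
  | _ => B + 1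

theorem z_meet {l r : Hx → ℕ} (h : ICN p l r) {B : ℕ} (hB : ∀ x, hval p x → r x ≤ B) {x y : Vb}
    (hx : valid p x) (hy : valid p y) (ha : Adj p x y ∨ x = y) : zL l B x ≤ zR r B y := by
  rcases ha with ha | rfl
  · cases x with
    | hA => cases y <;> simp only [zL, zR] <;> omega
    | hB => cases y <;> first | exact ha.elim | (simp only [zL, zR]; omega)
    | hb j k => cases y <;> simp only [zL, zR] <;> omega
    | h x =>
      have h1 := h.le x hx
      have h2 := hB x hx
      cases y with
      | h y => have := h.meet x y hx hy ha; simp only [zL, zR]; omega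
      | _ => simp only [zL, zR]; omega
  · cases x with
    | h x => have := h.le x hx; simp only [zL, zR]; omega
    | _ => simp only [zL, zR]; omega

theorem sep_half {l r : Hx → ℕ} (h : ICN p l r) {B : ℕ} (hB : ∀ x, hval p x → r x ≤ B) {x y : Vb}
    (hx : valid p x) (hy : valid p y) (hne : x ≠ y) (ha : ¬ Adj p x y) :
    (zR r B x < zL l B y ∨ zR r B y < zL l B x) ∨
      ∃ i < 6, auxR p x i < auxL p y i ∨ auxR p y i < auxL p x i := by
  have hubc : ∀ j k x, valid p (.hb j k) → hval p x → ¬ hubAdj j k (col x) →
      auxR p (.hb j k) j < auxL p (.h x) j ∨ auxR p (.h x) j < auxL p (.hb j k) j := by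
    intro j k x h1 h2 h3
    have h4 := lo_le_hi (p := p) x
    have h5 := hi_le h2
    have h6 := h1.2
    unfold hubAdj at h3
    simp only [auxL, auxR]
    by_cases hs : side j (col x)
    · simp only [hs, not_true_eq_false, and_false, and_true, false_or, if_true, true_and] at h3 ⊢
      split_ifs <;> omega
    · simp only [hs, not_false_eq_true, and_false, and_true, or_false, if_false, true_and] at h3 ⊢
      split_ifs <;> omega
  cases x with
  | hA =>
    cases y with
    | hA => exact (hne rfl).elim
    | hB => left; simp only [zL, zR]; omega
    | _ => exact (ha trivial).elim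
  | hB =>
    cases y with
    | hA => left; simp only [zL, zR]; omega
    | hB => exact (hne rfl).elim
    | hb j k => exact (ha trivial).elim
    | h y => left; have := hB y hy; simp only [zL, zR]; omega
  | hb j k =>
    cases y with
    | hb j' k' =>
      have e : j = j' := not_not.1 ha
      subst e
      have h1 : k ≠ k' := fun e => hne (by rw [e])
      have h2 := hx.2
      have h3 := hy.2
      refine Or.inr ⟨j, hx.1, ?_⟩
      simp only [auxL, auxR, true_and]
      split_ifs <;> omega
    | h y => exact Or.inr ⟨j, hx.1, hubc j k y hx hy ha⟩
    | _ => exact (ha trivial).elim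
  | h x =>
    cases y with
    | hA => exact (ha trivial).elim
    | hB => left; have := hB x hx; simp only [zL, zR]; omega
    | hb j k => exact Or.inr ⟨j, hy.1, (hubc j k x hy hx ha).symm⟩
    | h y =>
      by_cases hc : col x = col y
      · have := h.sep x y hx hy (fun e => hne (by rw [e])) hc
        left; simp only [zL, zR]; omega
      · obtain ⟨b, hb, hs⟩ := side_sep (col_lt hx) (col_lt hy) hc
        have h1 : ¬ (lo p x ≤ hi p y ∧ lo p y ≤ hi p x) := fun h1 => ha ⟨hc, h1⟩
        have s0 := hs (2 * b) (by omega)
        have s1 := hs (2 * b + 1) (by omega)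
        have h2 := hi_le hx
        have h3 := hi_le hy
        have e0 : 2 * b % 2 = 0 := by omega
        have e1 : ¬ (2 * b + 1) % 2 = 0 := by omega
        have t1 : side (2 * b + 1) (col x) ↔ side (2 * b) (col x) := by unfold side; omega
        have t2 : side (2 * b + 1) (col y) ↔ side (2 * b) (col y) := by unfold side; omega
        right
        by_cases a : side (2 * b) (col x)
        · have a' := s0.1 a
          by_cases c : hi p y < lo p x
          · refine ⟨2 * b, by omega, Or.inr ?_⟩
            simp only [auxL, auxR, if_pos a, if_neg a', if_pos e0]; omega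
          · refine ⟨2 * b + 1, by omega, Or.inr ?_⟩
            simp only [auxL, auxR, t1, t2, if_pos a, if_neg a', if_neg e1]; omega
        · have a' : side (2 * b) (col y) := by by_contra a'; exact a (s0.2 a')
          by_cases c : hi p x < lo p y
          · refine ⟨2 * b, by omega, Or.inl ?_⟩
            simp only [auxL, auxR, if_neg a, if_pos a', if_pos e0]; omega
          · refine ⟨2 * b + 1, by omega, Or.inl ?_⟩
            simp only [auxL, auxR, t1, t2, if_neg a, if_pos a', if_neg e1]; omega

theorem box_of_icn {V : Type} [Fintype V] {G : SimpleGraph V} {φ : V → Vb} (hM : IsModel p G φ)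
    {l r : Hx → ℕ} (h : ICN p l r) : HasBoxRep G 7 := by
  classical
  obtain ⟨B, hB⟩ : ∃ B, ∀ x, hval p x → r x ≤ B := by
    refine ⟨univ.sup fun v => (zR r 0 (φ v)).toNat, fun x hx => ?_⟩
    obtain ⟨v, hv⟩ := hM.surj (.h x) hx
    refine le_trans ?_ (le_sup (f := fun v => (zR r 0 (φ v)).toNat) (mem_univ v))
    simp [hv, zR]
  rw [hasBoxRep_iff]
  let L : Vb → Fin 7 → ℤ := fun x i => if i.val = 6 then zL l B x else auxL p x i
  let R : Vb → Fin 7 → ℤ := fun x i => if i.val = 6 then zR r B x else auxR p x i
  have m : ∀ x y i, valid p x → valid p y → (Adj p x y ∨ x = y) → L x i ≤ R y i := by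
    intro x y i hx hy ha
    simp only [L, R]
    split_ifs
    · exact z_meet h hB hx hy ha
    · rcases ha with ha | rfl
      · exact aux_meet hx hy ha _
      · exact (aux_bd hx _).2.1
  refine ⟨fun v i => (L (φ v) i : ℝ), fun v i => (R (φ v) i : ℝ), fun v i => ?_,
    fun u v huv => ⟨fun ha i => ?_, fun hh => ?_⟩⟩
  · exact Int.cast_le.2 (m _ _ i (hM.val v) (hM.val v) (Or.inr rfl))
  · have a := (hM.adj u v).1 ha
    exact ⟨Int.cast_le.2 (m _ _ i (hM.val u) (hM.val v) (Or.inl a)),
      Int.cast_le.2 (m _ _ i (hM.val v) (hM.val u) (Or.inl a.symm))⟩
  · rw [hM.adj]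
    by_contra ha
    have hh' : ∀ i, L (φ u) i ≤ R (φ v) i ∧ L (φ v) i ≤ R (φ u) i := fun i =>
      ⟨Int.cast_le.1 (hh i).1, Int.cast_le.1 (hh i).2⟩
    rcases sep_half h hB (hM.val u) (hM.val v) (fun e => huv (hM.inj e)) ha with s | ⟨i, hi, s⟩
    · have := hh' ⟨6, by norm_num⟩
      simp only [L, R, if_true] at this
      omega
    · have := hh' ⟨i, by omega⟩
      simp only [L, R, if_neg (show ¬ i = 6 by omega)] at this
      omega

/-! ### Treewidth -/

theorem canon_sep (hK : 1 ≤ p.K) {x y : Hx} (hx : hval p x) (hy : hval p y) (nx : x ≠ .rt)
    (ny : y ≠ .rt) (hc : col x = col y) (h1 : lo p x ≤ hi p y) (h2 : lo p y ≤ hi p x) : x = y := by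
  have item : ∀ j t j' t', j < p.m → j' < p.m → t ≤ 12 * p.s j + 2 → t' ≤ 12 * p.s j' + 2 →
      base p j + t ≤ base p j' + t' + 2 → base p j' + t' ≤ base p j + t + 2 → j = j' := by
    intro j t j' t' hj hj' a1 a2 a3 a4
    have b1 := (item_bd hj).1
    have b2 := (item_bd hj').1
    rcases lt_trichotomy j j' with a | a | a
    · have := base_step (p := p) a; omega
    · exact a
    · have := base_step (p := p) a; omega
  cases x with
  | rt => exact (nx rfl).elim
  | w i =>
    have hi : i < p.P := hx
    cases y with
    | w i' => simp only [col, lo, Box.hi] at hc h1 h2; congr 1; omega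
    | wl b c => simp only [col] at hc; omega
    | en e => simp only [col] at hc; omega
    | rt => exact (ny rfl).elim
    | bb j t => simp only [col] at hc; omega
    | tk j t => have := base_ge (p := p) j; simp only [col, lo, Box.hi] at hc h1 h2; omega
  | wl b c =>
    have hb := Par.a_lt_P hx.1
    have hc2 := hx.2
    cases y with
    | w i' => simp only [col] at hc; omega
    | wl b' c' =>
      simp only [col, lo, hi] at hc h1 h2
      have : b = b' := (Par.a_strictMono (p := p)).injective (by omega)
      congr 1; omega
    | en e => simp only [col] at hc; omega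
    | rt => exact (ny rfl).elim
    | bb j t => have := base_ge (p := p) j; simp only [col, lo, hi] at hc h1 h2; omega
    | tk j t => simp only [col] at hc; omega
  | en e =>
    cases y with
    | w i' => simp only [col] at hc; omega
    | wl b' c' => have := hy.2; simp only [col] at hc; omega
    | en e' =>
      simp only [lo, hi] at h1 h2
      have : e * p.K = e' * p.K := (Par.a_strictMono (p := p)).injective (by omega)
      rw [Nat.eq_of_mul_eq_mul_right hK this]
    | rt => exact (ny rfl).elim
    | bb j t => simp only [col] at hc; omega
    | tk j t => simp only [col] at hc; omega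
  | bb j t =>
    have := base_ge (p := p) j
    cases y with
    | w i' => simp only [col] at hc; omega
    | wl b' c' => have := Par.a_lt_P hy.1; simp only [lo, hi] at h1 h2; omega
    | en e' => simp only [col] at hc; omega
    | rt => exact (ny rfl).elim
    | bb j' t' =>
      simp only [col, lo, hi] at hc h1 h2
      obtain rfl := item j (2 * t) j' (2 * t') hx.1 hy.1 (by have := hx.2; omega)
        (by have := hy.2; omega) h1 h2
      congr 1; omega
    | tk j t => simp only [col] at hc; omega
  | tk j t =>
    have := base_ge (p := p) j
    cases y with
    | w i' => have : i' < p.P := hy; simp only [lo, hi] at h1 h2; omega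
    | wl b' c' => simp only [col] at hc; omega
    | en e' => simp only [col] at hc; omega
    | rt => exact (ny rfl).elim
    | bb j' t' => simp only [col] at hc; omega
    | tk j' t' =>
      simp only [col, lo, hi] at hc h1 h2
      obtain rfl := item j (2 * t) j' (2 * t') hx.1 hy.1 (by have := hx.2; omega)
        (by have := hy.2; omega) (by omega) (by omega)
      congr 1; omega

def tlo (p : Par) : Vb → ℕ
  | .h x => lo p x
  | _ => 0

def thi (p : Par) : Vb → ℕ
  | .h x => hi p x
  | _ => M0 p

def place : Vb → ℕ
  | .hA => 6
  | .hB => 7
  | .hb j k => 8 + (3 * j + k)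
  | .h x => if x = .rt then 5 else col x

theorem thi_bd {x : Vb} (hx : valid p x) : tlo p x ≤ thi p x ∧ thi p x ≤ M0 p := by
  cases x with
  | h x => exact ⟨lo_le_hi x, hi_le hx⟩
  | _ => simp [tlo, thi]

theorem tw_le (hK : 1 ≤ p.K) {V : Type} [Fintype V] {G : SimpleGraph V} {φ : V → Vb}
    (hM : IsModel p G φ) : treewidth G ≤ 25 := by
  refine treewidth_le_of_intervals G 25 (M0 p) (fun v => tlo p (φ v)) (fun v => thi p (φ v))
    (fun v => (thi_bd (hM.val v)).1) (fun v => (thi_bd (hM.val v)).2) ?_ ?_
  · intro u v huv
    have a := (hM.adj u v).1 huv
    have b1 := thi_bd (hM.val u)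
    have b2 := thi_bd (hM.val v)
    generalize φ u = x at *
    generalize φ v = y at *
    cases x with
    | h x =>
      cases y with
      | h y => exact a.2.1
      | _ => exact b1.1.trans b1.2
    | _ => exact Nat.zero_le _
  · intro T
    calc _ ≤ (range 26).card := by
          refine card_le_card_of_injOn (fun v => place (φ v)) (fun v _ => ?_)
            fun u hu v hv e => hM.inj ?_
          · have := hM.val v
            simp only [coe_range, Set.mem_Iio]
            generalize φ v = x at *
            cases x with
            | hb j k => obtain ⟨t1, t2⟩ := this; simp only [place]; omega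
            | h x => have := col_lt this; simp only [place]; split_ifs <;> omega
            | _ => simp [place]
          · have a := (mem_filter.1 hu).2
            have b := (mem_filter.1 hv).2
            have hx := hM.val u
            have hy := hM.val v
            dsimp only at a b e
            generalize φ u = x at *
            generalize φ v = y at *
            cases x with
            | hA =>
              cases y with
              | hA => rfl
              | h y => have := col_lt hy; simp only [place] at e; split_ifs at e <;> omega
              | _ => simp only [place] at e; omega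
            | hB =>
              cases y with
              | hB => rfl
              | h y => have := col_lt hy; simp only [place] at e; split_ifs at e <;> omega
              | _ => simp only [place] at e; omega
            | hb j k =>
              cases y with
              | hb j' k' =>
                have := hx.2; have := hy.2
                simp only [place] at e
                congr 1 <;> omega
              | h y => have := col_lt hy; simp only [place] at e; split_ifs at e <;> omega
              | _ => simp only [place] at e; omega
            | h x =>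
              have cx := col_lt hx
              cases y with
              | h y =>
                have cy := col_lt hy
                simp only [place] at e
                split_ifs at e with e1 e2 e2
                · rw [e1, e2]
                · omega
                · omega
                · rw [canon_sep hK hx hy e1 e2 e (a.1.trans b.2) (b.1.trans a.2)]
              | _ => simp only [place] at e; split_ifs at e <;> omega
      _ = _ := by simp

end Pool.Agent.H236Z.Box
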