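import Pool.Agent.H236Z.Box.Rep

namespace Pool.Agent.H236Z.Box

open Finset Pool.Agent.H236Z.Book

variable {p : Par}

/-- `z` lies weakly between `a` and `b`. -/
def WB (z a b : ℝ) : Prop := (a ≤ z ∧ z ≤ b) ∨ (b ≤ z ∧ z ≤ a)

theorem slot_ex (y : ℕ → ℝ) (v : ℝ) (h1 : y 1 < v) : ∀ n, 1 ≤ n → v < y n →
    ∃ i, 1 ≤ i ∧ i < n ∧ y i ≤ v ∧ v < y (i + 1) := by
  intro n hn
  induction n, hn using Nat.le_induction with
  | base => intro h; linarith
  | succ n hn ih =>
    intro h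
    by_cases h2 : v < y n
    · obtain ⟨i, a1, a2, a3⟩ := ih h2
      exact ⟨i, a1, by omega, a3⟩
    · exact ⟨n, hn, by omega, not_lt.1 h2, h⟩

theorem bin_ex {z : ℕ} (h0 : 1 ≤ z) : ∀ n, z < p.a n → ∃ b < n, p.a b ≤ z ∧ z < p.a (b + 1) := by
  intro n
  induction n with
  | zero => intro h2; rw [Par.a_zero] at h2; omega
  | succ n ih =>
    intro h2
    by_cases h3 : z < p.a n
    · obtain ⟨b, hb, h5⟩ := ih h3
      exact ⟨b, by omega, h5⟩
    · exact ⟨n, by omega, by omega, h2⟩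

theorem pack_of_points (y : ℕ → ℝ) (x : ℕ → ℕ → ℝ)
    (ym : ∀ z, 1 ≤ z → z + 1 < p.P → y z < y (z + 1))
    (xlo : ∀ j t, j < p.m → t ≤ 6 * p.s j → y 1 < x j t)
    (xhi : ∀ j t, j < p.m → t ≤ 6 * p.s j → x j t < y (p.a p.K))
    (xpar : ∀ j t i, j < p.m → t ≤ 6 * p.s j → 1 ≤ i → i + 1 < p.P → y i ≤ x j t →
      x j t ≤ y (i + 1) → i % 2 ≠ t % 2)
    (xwall : ∀ j t b, j < p.m → t < 6 * p.s j → b ≤ p.K → ¬ WB (y (p.a b)) (x j t) (x j (t + 1)))
    (xin : ∀ j t j' t', j < p.m → t < 6 * p.s j → j' < p.m → t' ≤ 6 * p.s j' →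
      WB (x j' t') (x j t) (x j (t + 1)) → j = j' ∧ (t' = t ∨ t' = t + 1)) : p.Pack := by
  classical
  have hP : p.P = p.a p.K + 1 := rfl
  have ym' : ∀ a b, 1 ≤ a → a ≤ b → b < p.P → y a ≤ y b := by
    intro a b ha hab
    induction b, hab using Nat.le_induction with
    | base => intro _; exact le_rfl
    | succ b hab ih => intro hb; exact (ih (by omega)).trans (ym b (by omega) hb).le
  have hs : ∀ j t, j < p.m → t ≤ 6 * p.s j →
      ∃ i, 1 ≤ i ∧ i < p.a p.K ∧ y i ≤ x j t ∧ x j t < y (i + 1) := fun j t hj ht =>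
    slot_ex y _ (xlo j t hj ht) _ (Par.a_pos _) (xhi j t hj ht)
  choose! σ hσ using hs
  have hf : ∀ j, j < p.m → ∃ b < p.K, p.a b ≤ σ j 0 ∧ σ j 0 < p.a (b + 1) := fun j hj =>
    bin_ex (hσ j 0 hj (Nat.zero_le _)).1 _ (hσ j 0 hj (Nat.zero_le _)).2.1
  choose! f hf using hf
  have wall : ∀ j b, j < p.m → b ≤ p.K → ∀ t ≤ 6 * p.s j, (p.a b ≤ σ j t ↔ p.a b ≤ σ j 0) := by
    intro j b hj hb t
    induction t with
    | zero => intro _; rfl
    | succ t ih =>
      intro ht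
      rw [← ih (by omega)]
      obtain ⟨a1, a2, a3, a4⟩ := hσ j t hj (by omega)
      obtain ⟨b1, b2, b3, b4⟩ := hσ j (t + 1) hj ht
      have c1 := Par.a_pos (p := p) b
      have c2 := Par.a_lt_P hb
      have c3 := xwall j t b hj ht hb
      constructor
      · intro h1
        by_contra h2
        exact c3 (Or.inl ⟨a4.le.trans (ym' _ _ (by omega) (by omega) c2),
          (ym' _ _ c1 h1 (by omega)).trans b3⟩)
      · intro h1
        by_contra h2
        exact c3 (Or.inr ⟨b4.le.trans (ym' _ _ (by omega) (by omega) c2),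
          (ym' _ _ c1 h1 (by omega)).trans a3⟩)
  let Sp : ℕ → ℕ → ℕ → Prop := fun j t z =>
    (x j t < y z ∧ y z ≤ x j (t + 1)) ∨ (x j (t + 1) < y z ∧ y z ≤ x j t)
  have edge : ∀ j t, j < p.m → t < 6 * p.s j →
      ∃ z, p.a (f j) < z ∧ z < p.a (f j + 1) ∧ Sp j t z := by
    intro j t hj ht
    obtain ⟨a1, a2, a3, a4⟩ := hσ j t hj (by omega)
    obtain ⟨b1, b2, b3, b4⟩ := hσ j (t + 1) hj ht
    obtain ⟨c1, c2, c3⟩ := hf j hj
    have d1 := xpar j t _ hj ht.le a1 (by omega) a3 a4.le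
    have d2 := xpar j (t + 1) _ hj ht b1 (by omega) b3 b4.le
    have e1 := wall j (f j) hj c1.le t ht.le
    have e2 := wall j (f j) hj c1.le (t + 1) ht
    have e3 := wall j (f j + 1) hj c1 t ht.le
    have e4 := wall j (f j + 1) hj c1 (t + 1) ht
    rcases lt_or_gt_of_ne (show σ j t ≠ σ j (t + 1) by omega) with h | h
    · exact ⟨σ j (t + 1), by omega, by omega,
        Or.inl ⟨a4.trans_le (ym' _ _ (by omega) h (by omega)), b3⟩⟩
    · exact ⟨σ j t, by omega, by omega,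
        Or.inr ⟨b4.trans_le (ym' _ _ (by omega) h (by omega)), a3⟩⟩
  have inj : ∀ j t j' t' z, j < p.m → t < 6 * p.s j → j' < p.m → t' < 6 * p.s j' →
      Sp j t z → Sp j' t' z → j = j' ∧ t = t' := by
    intro j t j' t' z hj ht hj' ht' s1 s2
    have i1 := xin j t j' t' hj ht hj' ht'.le
    have i2 := xin j t j' (t' + 1) hj ht hj' ht'
    have i3 := xin j' t' j t hj' ht' hj ht.le
    have i4 := xin j' t' j (t + 1) hj' ht' hj ht
    rcases s1 with s1 | s1 <;> rcases s2 with s2 | s2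
    · rcases le_total (x j t) (x j' t') with c | c
      · obtain ⟨rfl, e | e⟩ := i1 (Or.inl ⟨c, by linarith⟩)
        · exact ⟨rfl, e.symm⟩
        · subst e; linarith
      · obtain ⟨rfl, e | e⟩ := i3 (Or.inl ⟨c, by linarith⟩)
        · exact ⟨rfl, e⟩
        · subst e; linarith
    · have k1 : j = j' ∧ (t = t' ∨ t = t' + 1) := by
        rcases le_total (x j t) (x j' (t' + 1)) with c | c
        · have := i2 (Or.inl ⟨c, by linarith⟩); omega
        · have := i3 (Or.inr ⟨c, by linarith⟩); omega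
      rcases le_total (x j (t + 1)) (x j' t') with c | c
      · have := i4 (Or.inr ⟨by linarith, c⟩); omega
      · have := i1 (Or.inl ⟨by linarith, c⟩); omega
    · have k1 : j = j' ∧ (t = t' ∨ t + 1 = t') := by
        rcases le_total (x j (t + 1)) (x j' t') with c | c
        · have := i1 (Or.inr ⟨c, by linarith⟩); omega
        · have := i4 (Or.inl ⟨c, by linarith⟩); omega
      rcases le_total (x j t) (x j' (t' + 1)) with c | c
      · have := i3 (Or.inl ⟨by linarith, c⟩); omega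
      · have := i2 (Or.inr ⟨by linarith, c⟩); omega
    · rcases le_total (x j (t + 1)) (x j' (t' + 1)) with c | c
      · obtain ⟨rfl, e | e⟩ := i2 (Or.inr ⟨c, by linarith⟩)
        · subst e; linarith
        · exact ⟨rfl, by omega⟩
      · obtain ⟨rfl, e | e⟩ := i4 (Or.inr ⟨c, by linarith⟩)
        · subst e; linarith
        · exact ⟨rfl, by omega⟩
  refine ⟨f, fun j hj => (hf j hj).1, fun b hb => ?_⟩
  let Ed : Finset (ℕ × ℕ) := ((range p.m).filter (fun j => f j = b)).biUnion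
    fun j => (range (6 * p.s j)).image fun t => (j, t)
  have mE : ∀ x, x ∈ Ed ↔ x.1 < p.m ∧ f x.1 = b ∧ x.2 < 6 * p.s x.1 := by
    rintro ⟨j, t⟩
    simp only [Ed, mem_biUnion, mem_filter, mem_range, mem_image, Prod.mk.injEq]
    constructor
    · rintro ⟨j', ⟨h1, h2⟩, t', h3, rfl, rfl⟩
      exact ⟨h1, h2, h3⟩
    · rintro ⟨h1, h2, h3⟩
      exact ⟨j, ⟨h1, h2⟩, t, h3, rfl, rfl⟩
  have cE : Ed.card = 6 * ∑ j ∈ (range p.m).filter (fun j => f j = b), p.s j := by
    rw [card_biUnion, mul_sum]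
    · refine sum_congr rfl fun j _ => ?_
      rw [card_image_of_injective _ (fun t t' e => (Prod.ext_iff.1 e).2), card_range]
    · intro j _ j' _ hne
      rw [Function.onFun, disjoint_left]
      intro x h1 h2
      obtain ⟨t, _, rfl⟩ := mem_image.1 h1
      obtain ⟨t', _, e⟩ := mem_image.1 h2
      exact hne (Prod.ext_iff.1 e).1.symm
  choose! z hz using edge
  have c3 : Ed.card ≤ (Ioo (p.a b) (p.a (b + 1))).card := by
    refine card_le_card_of_injOn (fun e => z e.1 e.2) (fun e he => ?_) fun e he e' he' h => ?_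
    · obtain ⟨h4, h5, h6⟩ := (mE e).1 he
      have := hz _ _ h4 h6
      rw [h5] at this
      exact mem_Ioo.2 ⟨this.1, this.2.1⟩
    · obtain ⟨h4, -, h6⟩ := (mE e).1 he
      obtain ⟨h7, -, h8⟩ := (mE e').1 he'
      have h9 : z e.1 e.2 = z e'.1 e'.2 := h
      have := inj _ _ _ _ _ h4 h6 h7 h8 (hz _ _ h4 h6).2.2 (h9 ▸ (hz _ _ h7 h8).2.2)
      exact Prod.ext this.1 this.2
  rw [Nat.card_Ioo, Par.a_succ] at c3
  omega

/-- An oriented real model. -/
structure ICR (p : Par) (l r : Hx → ℝ) : Prop where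
  le : ∀ x, hval p x → l x ≤ r x
  meet : ∀ x y, hval p x → hval p y → HAdj p x y → l x ≤ r y
  sep : ∀ x y, hval p x → hval p y → x ≠ y → col x = col y → r x < l y ∨ r y < l x
  dir : r (.w 0) < l (.w 2)

theorem P_ge4 (hK : 1 ≤ p.K) : 4 ≤ p.P := by
  have h1 := (Par.a_strictMono (p := p)).monotone hK
  have h2 := Par.a_succ (p := p) 0
  have h3 := Par.a_zero (p := p)
  unfold Par.P
  simp only [zero_add] at h2
  omega

theorem icr_of_icg (hK : 1 ≤ p.K) (h : ICG p) : ∃ l r, ICR p l r := by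
  obtain ⟨l, r, h1, h2, h3⟩ := h
  have hP := P_ge4 hK
  rcases h3 (.w 0) (.w 2) (show 0 < p.P by omega) (show 2 < p.P by omega) (by simp) rfl with a | a
  · exact ⟨l, r, h1, h2, h3, a⟩
  · refine ⟨fun x => - r x, fun x => - l x, fun x hx => neg_le_neg (h1 x hx),
      fun x y hx hy hxy => neg_le_neg (h2 y x hy hx hxy.symm), fun x y hx hy hne hc => ?_,
      neg_lt_neg a⟩
    rcases h3 x y hx hy hne hc with b | b
    · exact Or.inr (neg_lt_neg b)
    · exact Or.inl (neg_lt_neg b)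

theorem col_four {x : Hx} (hx : hval p x) (hc : col x = 4) : x = .rt ∨ ∃ e, x = .en e := by
  cases x with
  | rt => exact Or.inl rfl
  | en e => exact Or.inr ⟨e, rfl⟩
  | wl b c => have := hx.2; simp only [col] at hc; omega
  | _ => simp only [col] at hc; omega

namespace ICR

variable {l r : Hx → ℝ} (h : ICR p l r)
include h

theorem helly (hK : 1 ≤ p.K) (C : Hx → Prop) (T : ℕ) (hr : C .rt → ∀ e, ¬ C (.en e)) :
    ∃ v, ∀ x, hval p x → lo p x ≤ T → T ≤ hi p x → C x → l x ≤ v ∧ v ≤ r x := by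
  let S : Set Hx := {x | hval p x ∧ lo p x ≤ T ∧ T ≤ hi p x ∧ C x}
  have key : ∀ x ∈ S, ∀ y ∈ S, l x ≤ r y := by
    rintro x ⟨x1, x2, x3, x4⟩ y ⟨y1, y2, y3, y4⟩
    by_cases e : x = y
    · subst e; exact h.le x x1
    · refine h.meet x y x1 y1 ⟨fun hc => ?_, x2.trans y3, y2.trans x3⟩
      by_cases a : x = .rt
      · subst a
        rcases col_four y1 hc.symm with b | ⟨e', b⟩
        · exact e b.symm
        · exact hr x4 e' (b ▸ y4)
      · by_cases b : y = .rt
        · subst b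
          rcases col_four x1 hc with c | ⟨e', c⟩
          · exact a c
          · exact hr y4 e' (c ▸ x4)
        · exact e (canon_sep hK x1 y1 a b hc (x2.trans y3) (y2.trans x3))
  refine ⟨sSup (l '' S), fun x x1 x2 x3 x4 => ⟨?_, ?_⟩⟩
  · refine le_csSup ⟨r x, ?_⟩ ⟨x, ⟨x1, x2, x3, x4⟩, rfl⟩
    rintro _ ⟨y, hy, rfl⟩
    exact key y hy x ⟨x1, x2, x3, x4⟩
  · refine csSup_le ⟨_, x, ⟨x1, x2, x3, x4⟩, rfl⟩ ?_
    rintro _ ⟨y, hy, rfl⟩
    exact key y hy x ⟨x1, x2, x3, x4⟩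

theorem eq_of {x y : Hx} (hx : hval p x) (hy : hval p y) (hc : col x = col y) {v : ℝ}
    (h1 : l x ≤ v ∧ v ≤ r x) (h2 : l y ≤ v ∧ v ≤ r y) : x = y := by
  by_contra hne
  rcases h.sep x y hx hy hne hc with a | a <;> linarith [h1.1, h1.2, h2.1, h2.2]

theorem w_adj {i : ℕ} (hi : i + 1 < p.P) : l (.w i) ≤ r (.w (i + 1)) ∧ l (.w (i + 1)) ≤ r (.w i) := by
  have a : HAdj p (.w i) (.w (i + 1)) := by
    simp only [HAdj, col, lo, Box.hi]; omega
  exact ⟨h.meet _ _ (show i < p.P by omega) hi a, h.meet _ _ hi (show i < p.P by omega) a.symm⟩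

theorem w_mono : ∀ i, i + 2 < p.P → r (.w i) < l (.w (i + 2)) := by
  intro i
  induction i with
  | zero => intro _; exact h.dir
  | succ i ih =>
    intro hi
    have a := ih (by omega)
    rcases h.sep (.w (i + 1)) (.w (i + 1 + 2)) (show i + 1 < p.P by omega) hi (by simp)
      (by simp only [col]; omega) with b | b
    · exact b
    · have c1 := (h.w_adj (i := i) (by omega)).2
      have c2 := (h.w_adj (i := i + 2) (by omega)).1
      exact absurd (c1.trans_lt (a.trans_le c2)) (not_lt.2 b.le)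

theorem pack (hK : 1 ≤ p.K) : p.Pack := by
  have hP4 := P_ge4 hK
  have hP : p.P = p.a p.K + 1 := rfl
  choose y hy using fun z => h.helly hK (fun x => x ≠ .rt) (2 * z) (fun a => (a rfl).elim)
  choose x hx using fun j t => h.helly hK (fun x => ∀ e, x ≠ .en e) (base p j + 2 * t + 2)
    (fun _ e a => a e rfl)
  have y1 : ∀ z, z < p.P → l (.w z) ≤ y z ∧ y z ≤ r (.w z) := fun z hz =>
    hy z _ hz le_rfl (by simp only [hi]; omega) (by simp)
  have y2 : ∀ z, z < p.P → l (.w z) ≤ y (z + 1) ∧ y (z + 1) ≤ r (.w z) := fun z hz =>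
    hy (z + 1) _ hz (by simp only [lo]; omega) (by simp only [hi]; omega) (by simp)
  have y3 : ∀ b c, b ≤ p.K → c < 2 → l (.wl b c) ≤ y (p.a b) ∧ y (p.a b) ≤ r (.wl b c) :=
    fun b c hb hc => hy _ (.wl b c) ⟨hb, hc⟩ le_rfl le_rfl (by simp)
  have y4 : ∀ e, e < 2 → l (.en e) ≤ y (p.a (e * p.K)) ∧ y (p.a (e * p.K)) ≤ r (.en e) :=
    fun e he => hy _ (.en e) he le_rfl le_rfl (by simp)
  have x1 : ∀ j t, j < p.m → t ≤ 6 * p.s j → l (.tk j t) ≤ x j t ∧ x j t ≤ r (.tk j t) :=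
    fun j t hj ht => hx j t (.tk j t) ⟨hj, ht⟩ le_rfl le_rfl (by simp)
  have x2 : ∀ j t, j < p.m → t ≤ 6 * p.s j → l (.bb j t) ≤ x j t ∧ x j t ≤ r (.bb j t) :=
    fun j t hj ht => hx j t (.bb j t) ⟨hj, by omega⟩ (by simp only [lo]; omega) le_rfl (by simp)
  have x3 : ∀ j t, j < p.m → t ≤ 6 * p.s j →
      l (.bb j (t + 1)) ≤ x j t ∧ x j t ≤ r (.bb j (t + 1)) :=
    fun j t hj ht => hx j t (.bb j (t + 1)) ⟨hj, by omega⟩ le_rfl (by simp only [hi]; omega)
      (by simp)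
  have x4 : ∀ j t, j < p.m → t ≤ 6 * p.s j → l .rt ≤ x j t ∧ x j t ≤ r .rt :=
    fun j t hj ht => hx j t .rt trivial (Nat.zero_le _) (hi_le (x := .tk j t) ⟨hj, ht⟩) (by simp)
  have conv : ∀ j t v, j < p.m → t < 6 * p.s j → WB v (x j t) (x j (t + 1)) →
      l (.bb j (t + 1)) ≤ v ∧ v ≤ r (.bb j (t + 1)) := by
    intro j t v hj ht hv
    have a := x3 j t hj ht.le
    have b := x2 j (t + 1) hj ht
    rcases hv with hv | hv
    · exact ⟨a.1.trans hv.1, hv.2.trans b.2⟩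
    · exact ⟨b.1.trans hv.1, hv.2.trans a.2⟩
  have rw1 : ∀ i, i < p.P → l .rt ≤ r (.w i) ∧ l (.w i) ≤ r .rt := by
    intro i hi
    have a : HAdj p .rt (.w i) := ⟨by simp only [col]; omega, Nat.zero_le _,
      (lo_le_hi _).trans (hi_le (x := .w i) hi)⟩
    exact ⟨h.meet _ _ trivial hi a, h.meet _ _ hi trivial a.symm⟩
  have r1 : y 1 < l .rt := by
    have a := y4 0 (by norm_num)
    rw [zero_mul, Par.a_zero] at a
    have b := (y2 0 (by omega)).2
    have c := h.dir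
    have d := (rw1 2 (by omega)).2
    rw [zero_add] at b
    rcases h.sep (.en 0) .rt (show 0 < 2 by norm_num) trivial (by simp) rfl with e | e <;>
      linarith [a.1, a.2]
  have r2 : r .rt < y (p.a p.K) := by
    have a := y4 1 (by norm_num)
    rw [one_mul] at a
    obtain ⟨i, hi⟩ : ∃ i, p.a p.K = i + 2 := ⟨p.a p.K - 2, by omega⟩
    have b := (y1 (p.a p.K) (by omega)).1
    have c := h.w_mono i (by omega)
    have d := (rw1 i (by omega)).1
    rw [← hi] at c
    rcases h.sep (.en 1) .rt (show 1 < 2 by norm_num) trivial (by simp) rfl with e | e <;>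
      linarith [a.1, a.2]
  refine pack_of_points y x (fun z z1 z2 => ?_) (fun j t hj ht => r1.trans_le (x4 j t hj ht).1)
    (fun j t hj ht => (x4 j t hj ht).2.trans_lt r2) (fun j t i hj ht i1 i2 a b e => ?_)
    (fun j t b hj ht hb hw => ?_) fun j t j' t' hj ht hj' ht' hw => ?_
  · obtain ⟨i, rfl⟩ : ∃ i, z = i + 1 := ⟨z - 1, by omega⟩
    exact (y2 i (by omega)).2.trans_lt ((h.w_mono i z2).trans_le (y1 (i + 2) z2).1)
  · have := h.eq_of (x := .w i) (y := .tk j t) (show i < p.P by omega) ⟨hj, ht⟩ e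
      ⟨(y1 i (by omega)).1.trans a, b.trans (y2 i (by omega)).2⟩ (x1 j t hj ht)
    simp at this
  · have := h.eq_of (x := .wl b ((t + 1) % 2)) (y := .bb j (t + 1)) ⟨hb, by omega⟩ ⟨hj, by omega⟩
      rfl (y3 b _ hb (by omega)) (conv j t _ hj ht hw)
    simp at this
  · have a := conv j t _ hj ht hw
    by_cases e : t' % 2 = (t + 1) % 2
    · have := h.eq_of (x := .bb j' t') (y := .bb j (t + 1)) ⟨hj', by omega⟩ ⟨hj, by omega⟩
        (by simp only [col]; omega) (x2 j' t' hj' ht') a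
      simp only [Hx.bb.injEq] at this
      omega
    · have := h.eq_of (x := .bb j' (t' + 1)) (y := .bb j (t + 1)) ⟨hj', by omega⟩ ⟨hj, by omega⟩
        (by simp only [col]; omega) (x3 j' t' hj' ht') a
      simp only [Hx.bb.injEq] at this
      omega

end ICR

end Pool.Agent.H236Z.Box
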